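import Pool.Agent.H.MP_c4e2dd_an.A
namespace Pool.Agent.H.MP_a7579f_an
open Metric Pool.Agent.H.MP_ceba03_an Filter Topology TopologicalSpace Nat
open Pool.Agent.H.MP_e9aa5f_an Pool.Agent.H.MP_c4e2dd_an Complex symmDiff

abbrev Pt := ℕ × Finset ℕ

noncomputable def g : ℕ → Pt → ℂ
  | 0 => fun x => e (denseSeq T x.1)
  | n + 1 => fun x =>
    have : n.unpair.2.unpair.1 < n + 1 :=
      lt_succ_of_le ((unpair_left_le _).trans (unpair_right_le _))
    have : n.unpair.2.unpair.2 < n + 1 :=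
      lt_succ_of_le ((unpair_right_le _).trans (unpair_right_le _))
    if n.unpair.1 = 0 then g n.unpair.2.unpair.1 x + g n.unpair.2.unpair.2 x
    else if n.unpair.1 = 1 then g n.unpair.2.unpair.1 x * g n.unpair.2.unpair.2 x
    else if n.unpair.1 = 2 then (if n ∈ x.2 then -1 else 1) * g n.unpair.2.unpair.1 x ^ (2⁻¹ : ℂ)
    else denseSeq ℂ n.unpair.2

lemma g_cases (n : ℕ) : ∃ i ≤ n, ∃ j ≤ n, g (n + 1) = g i + g j ∨ g (n + 1) = g i * g j ∨
    (g (n + 1) = fun x => (if n ∈ x.2 then -1 else 1) * g i x ^ (2⁻¹ : ℂ)) ∨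
    ∃ c, g (n + 1) = fun _ => c := by
  refine ⟨_, (unpair_left_le _).trans (unpair_right_le n), _,
    (unpair_right_le _).trans (unpair_right_le n), ?_⟩
  rw [g]
  split_ifs
  exacts [.inl rfl, .inr (.inl rfl), .inr (.inr (.inl rfl)), .inr (.inr (.inr ⟨_, rfl⟩))]

lemma g_add (i j : ℕ) : ∃ k, ∀ x, g k x = g i x + g j x :=
  ⟨pair 0 (pair i j) + 1, fun x => by rw [g]; simp⟩

lemma g_mul (i j : ℕ) : ∃ k, ∀ x, g k x = g i x * g j x :=
  ⟨pair 1 (pair i j) + 1, fun x => by rw [g]; simp⟩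

lemma sq_root (p : Prop) [Decidable p] (a : ℂ) : ((if p then -1 else 1) * a ^ (2⁻¹ : ℂ)) ^ 2 = a := by
  split_ifs <;> simp

lemma g_root (k i : ℕ) : ∃ j, ∀ x, g j x ^ 2 ^ k = g i x := by
  induction k with
  | zero => exact ⟨i, by simp⟩
  | succ k ih =>
    obtain ⟨j, hj⟩ := ih
    refine ⟨pair 2 (pair j 0) + 1, fun x => ?_⟩
    rw [g, pow_succ', pow_mul]
    simp only [unpair_pair, OfNat.ofNat_ne_zero, OfNat.ofNat_ne_one, if_false, if_true, sq_root, hj]

lemma g_const (c : ℂ) {ε : ℝ} (hε : 0 < ε) : ∃ k κ, ‖κ - c‖ < ε ∧ ∀ x, g k x = κ := by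
  obtain ⟨m, hm⟩ := (denseRange_denseSeq ℂ).exists_dist_lt c hε
  exact ⟨pair 3 m + 1, _, by rwa [← dist_eq_norm'], fun x => by rw [g]; simp⟩

lemma g_bd (n : ℕ) : ∃ M, ∀ x, ‖g n x‖ ≤ M := by
  induction n using Nat.strong_induction_on with
  | _ n ih =>
  cases n with
  | zero => exact ⟨1, fun x => by rw [g, e_norm]⟩
  | succ n =>
    obtain ⟨i, hi, j, hj, h⟩ := g_cases n
    obtain ⟨M, hM⟩ := ih i (by omega)
    obtain ⟨N, hN⟩ := ih j (by omega)
    rcases h with h | h | h | ⟨c, h⟩ <;> rw [h]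
    · exact ⟨M + N, fun x => norm_add_le_of_le (hM x) (hN x)⟩
    · exact ⟨M * N, fun x => norm_mul_le_of_le (hM x) (hN x)⟩
    · refine ⟨M + 1, fun x => ?_⟩
      have := congrArg norm (sq_root (n ∈ x.2) (g i x))
      rw [norm_pow] at this
      nlinarith [hM x, norm_nonneg (g i x)]
    · exact ⟨_, fun _ => le_rfl⟩

lemma g_flip (n : ℕ) : ∀ m, n ≤ m → ∀ x : Pt, g n (x.1, x.2 ∆ {m}) = g n x := by
  induction n using Nat.strong_induction_on with
  | _ n ih =>
  intro m hm x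
  cases n with
  | zero => simp [g]
  | succ n =>
    obtain ⟨i, hi, j, hj, h⟩ := g_cases n
    have h1 := ih i (by omega) m (by omega) x
    have h2 := ih j (by omega) m (by omega) x
    rcases h with h | h | h | ⟨c, h⟩ <;> rw [h]
    · simp [h1, h2]
    · simp [h1, h2]
    · simp [h1, Finset.mem_symmDiff, show n ≠ m by omega]

noncomputable def R (n : ℕ) : Subalgebra ℂ (Pt → ℂ) := Algebra.adjoin ℂ (g '' Set.Iic n)

lemma R_mem {i n : ℕ} (h : i ≤ n) : g i ∈ R n := Algebra.subset_adjoin ⟨i, h, rfl⟩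

lemma R_flip {n : ℕ} {p : Pt → ℂ} (h : p ∈ R n) (x : Pt) : p (x.1, x.2 ∆ {n}) = p x := by
  induction h using Algebra.adjoin_induction with
  | mem _ h => obtain ⟨i, hi, rfl⟩ := h; exact g_flip i n hi x
  | algebraMap => rfl
  | add _ _ _ _ h1 h2 => simp [h1, h2]
  | mul _ _ _ _ h1 h2 => simp [h1, h2]

lemma R_succ {n : ℕ} {p : Pt → ℂ} (h : p ∈ R (n + 1)) (h2 : g (n + 1) * g (n + 1) ∈ R n) :
    ∃ a ∈ R n, ∃ b ∈ R n, p = a + b * g (n + 1) := by
  induction h using Algebra.adjoin_induction with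
  | mem _ h =>
    obtain ⟨i, hi, rfl⟩ := h
    rcases (Set.mem_Iic.1 hi).eq_or_lt with rfl | hi
    · exact ⟨0, zero_mem _, 1, one_mem _, by simp⟩
    · exact ⟨_, R_mem (le_of_lt_succ hi), 0, zero_mem _, by simp⟩
  | algebraMap c => exact ⟨_, (R n).algebraMap_mem c, 0, zero_mem _, by simp⟩
  | add _ _ _ _ h3 h4 =>
    obtain ⟨a, ha, b, hb, rfl⟩ := h3
    obtain ⟨c, hc, d, hd, rfl⟩ := h4
    exact ⟨_, add_mem ha hc, _, add_mem hb hd, by ring⟩
  | mul _ _ _ _ h3 h4 =>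
    obtain ⟨a, ha, b, hb, rfl⟩ := h3
    obtain ⟨c, hc, d, hd, rfl⟩ := h4
    exact ⟨_, add_mem (mul_mem ha hc) (mul_mem (mul_mem hb hd) h2), _,
      add_mem (mul_mem ha hd) (mul_mem hb hc), by ring⟩

lemma noinv (n : ℕ) : ∀ p ∈ R n, ∀ B, (∀ x, ‖1 - g 0 x * p x‖ ≤ B) → 1 ≤ B := by
  induction n with
  | zero =>
    intro p hp B h
    rw [R, show Set.Iic 0 = {0} by ext; simp, Set.image_singleton,
      Algebra.adjoin_singleton_eq_range_aeval] at hp
    obtain ⟨q, rfl⟩ := hp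
    have h1 : ∀ t, ‖(1 - Polynomial.X * q).eval (e t)‖ ≤ B := fun t =>
      (denseRange_denseSeq T).induction_on t (isClosed_le (by have := e_cont; fun_prop)
        continuous_const) fun m => by simpa [g, Polynomial.aeval_fn_apply] using h (m, ∅)
    have := maxA (an_poly (1 - Polynomial.X * q)) (B := B)
      (fun w hw => by obtain ⟨t, rfl⟩ := e_surj hw; exact h1 t) (z := 0) (by simp)
    rw [Polynomial.eval_sub] at this
    simpa using this
  | succ n ih =>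
    intro p hp B h
    by_cases h1 : g (n + 1) ∈ R n
    · obtain ⟨a, ha, b, hb, rfl⟩ := R_succ hp (mul_mem h1 h1)
      exact ih _ (add_mem ha (mul_mem hb h1)) B h
    obtain ⟨i, hi, j, hj, h2 | h2 | h2 | ⟨c, h2⟩⟩ := g_cases n
    · exact absurd (h2 ▸ add_mem (R_mem hi) (R_mem hj)) h1
    · exact absurd (h2 ▸ mul_mem (R_mem hi) (R_mem hj)) h1
    · obtain ⟨a, ha, b, hb, rfl⟩ := R_succ hp (by
        convert R_mem hi; funext x; rw [h2, Pi.mul_apply, ← sq, sq_root])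
      refine ih a ha B fun x => ?_
      have h3 := norm_add_le_of_le (h x) (h (x.1, x.2 ∆ {n}))
      have h4 : g (n + 1) (x.1, x.2 ∆ {n}) = -g (n + 1) x := by
        simp only [h2, g_flip i n hi]
        by_cases h4 : n ∈ x.2 <;> simp [h4, Finset.mem_symmDiff]
      simp only [Pi.add_apply, Pi.mul_apply, h4, R_flip ha, R_flip hb, g_flip 0 n (by simp)] at h3
      rw [show ∀ u a b : ℂ, 1 - u * (a + b * g (n + 1) x) + (1 - u * (a + b * -g (n + 1) x)) =
        2 * (1 - u * a) from fun u a b => by ring, norm_mul, Complex.norm_ofNat] at h3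
      linarith
    · exact absurd (h2 ▸ (R n).algebraMap_mem c) h1

noncomputable def xs (n : ℕ) : Pt := (Denumerable.eqv Pt).symm n.unpair.1

lemma xs_freq (x : Pt) : ∃ᶠ n in atTop, xs n = x := frequently_atTop.2 fun N =>
  ⟨pair (Denumerable.eqv Pt x) N, right_le_pair _ _, by simp [xs]⟩

end Pool.Agent.H.MP_a7579f_an
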