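import Pool.Agent.H.MP_a7579f_an.A
namespace Pool.Agent.H.MP_a7579f_an
open Metric Filter Topology Pool.Agent.H.MP_c4e2dd_an Complex Real

abbrev D := ball (0 : ℂ) 1

noncomputable def fn (n : ℕ) (w : ℂ) : ℂ :=
  cexp (-((lam w - (((n + 1) ^ 3 : ℝ) + π / 4 * I)) / (n + 1 : ℝ)) ^ 2)

noncomputable def β (n : ℕ) (x : ℝ) : ℝ := rexp (1 / (n + 1) - ((x - (n + 1) ^ 3) / (n + 1)) ^ 2)

lemma fn_le (n : ℕ) (w : D) : ‖fn n w‖ ≤ β n (lam w).re := by
  obtain ⟨h1, h2⟩ := lam_st (ball_subset_closedBall w.2)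
  rw [fn, β, Complex.norm_exp, Real.exp_le_exp, neg_re, sq, mul_re, div_ofReal_re, div_ofReal_im]
  simp only [sub_re, add_re, ofReal_re, mul_I_re, div_ofNat_im, ofReal_im, zero_div, neg_zero,
    add_zero, sub_im, add_im, mul_I_im, div_ofNat_re, zero_add]
  have h3 : ((lam w).im - π / 4) * ((lam w).im - π / 4) ≤ 1 := by nlinarith [pi_le_four]
  have h4 : ((lam w).im - π / 4) / (n + 1) * (((lam w).im - π / 4) / (n + 1)) ≤ 1 / (n + 1) := by
    rw [div_mul_div_comm, div_le_div_iff₀ (by positivity) (by positivity)]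
    nlinarith [n.cast_nonneg (α := ℝ), mul_self_nonneg ((lam w).im - π / 4)]
  linarith

def Ex (n : ℕ) (x : ℝ) : Prop := |x - ((n : ℝ) + 1) ^ 3| < ((n : ℝ) + 1) ^ 2

lemma β_le (n : ℕ) (x : ℝ) : β n x ≤ rexp (1 / (n + 1)) :=
  Real.exp_le_exp.2 (sub_le_self _ (sq_nonneg _))

lemma β_le' {n : ℕ} {x : ℝ} (h : ¬ Ex n x) : β n x ≤ rexp (-n) := by
  have h0 := n.cast_nonneg (α := ℝ)
  have h1 : (n + 1 : ℝ) ^ 2 ≤ ((x - (n + 1) ^ 3) / (n + 1)) ^ 2 := by
    rw [← sq_abs (_ / _), abs_div, abs_of_pos (a := (n + 1 : ℝ)) (by positivity)]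
    gcongr
    rw [le_div_iff₀ (by positivity), ← sq]; exact not_lt.1 h
  have h2 : 1 / (n + 1 : ℝ) ≤ 1 := div_le_one_of_le₀ (by linarith) (by positivity)
  exact Real.exp_le_exp.2 (by nlinarith)

lemma Ex_le {n : ℕ} {x y : ℝ} (h : x ≤ y) (hn : y ≤ n) : ¬ Ex n x := fun h1 => by
  have h0 := n.cast_nonneg (α := ℝ)
  nlinarith [(abs_lt.1 h1).1, pow_nonneg h0 2, pow_nonneg h0 3]

lemma Ex_one (x : ℝ) (N : ℕ) (hx : (N + 1) ^ 3 + (N + 1) ^ 2 ≤ x) : ∃ k ≥ N, ∀ n ≠ k, ¬ Ex n x := by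
  by_cases h : ∃ k, Ex k x
  · obtain ⟨k, hk⟩ := h
    have h1 : ∀ n m : ℕ, n < m → Ex n x → Ex m x → False := fun n m h h1 h2 => by
      have h0 := n.cast_nonneg (α := ℝ)
      have h3 : (n + 1 : ℝ) ≤ m := by exact_mod_cast h
      obtain ⟨d, hd⟩ : ∃ d : ℝ, m = n + 1 + d := ⟨m - (n + 1), by ring⟩
      have d0 : 0 ≤ d := by linarith
      have h4 := (abs_lt.1 h1).2
      have h5 := (abs_lt.1 h2).1
      rw [hd] at h5
      nlinarith [mul_nonneg h0 d0, pow_nonneg d0 2, pow_nonneg d0 3, mul_nonneg (pow_nonneg h0 2) d0,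
        mul_nonneg h0 (pow_nonneg d0 2)]
    refine ⟨k, ?_, fun n hn h2 => (lt_or_gt_of_ne hn).elim (h1 _ _ · h2 hk) (h1 _ _ · hk h2)⟩
    by_contra! h2
    have h3 : (k + 1 : ℝ) ≤ N + 1 := by simpa using h2.le
    linarith [(abs_lt.1 hk).2, pow_le_pow_left₀ (by positivity) h3 2,
      pow_le_pow_left₀ (by positivity) h3 3]
  · exact ⟨N, le_rfl, fun n _ h1 => h ⟨n, h1⟩⟩

lemma β_loc (n : ℕ) {x y : ℝ} (h : x ≤ y) : β n x ≤ rexp (1 + |y|) * rexp (-n) := by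
  rw [← Real.exp_add]
  rcases le_total y n with h1 | h1
  · exact (β_le' (Ex_le h h1)).trans (Real.exp_le_exp.2 (by linarith [abs_nonneg y]))
  · refine (β_le n x).trans (Real.exp_le_exp.2 ?_)
    linarith [le_abs_self y, div_le_one_of_le₀ (show (1 : ℝ) ≤ n + 1 by simp) (by positivity)]

lemma β_sum (x : ℝ) : Summable fun n => β n x :=
  .of_nonneg_of_le (fun _ => (Real.exp_pos _).le) (fun n => β_loc n le_rfl)
    (summable_exp_neg_nat.mul_left _)

open Classical in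
noncomputable def γ (x : ℝ) (n : ℕ) : ℝ := if Ex n x then 0 else β n x

lemma γ_le (x : ℝ) (n : ℕ) : ‖γ x n‖ ≤ rexp (-n) := by
  unfold γ; split_ifs with h
  · simpa using (Real.exp_pos _).le
  · exact (Real.norm_of_nonneg (Real.exp_pos _).le).trans_le (β_le' h)

lemma γ_tend : Tendsto (fun x => ∑' n, γ x n) atTop (𝓝 0) := by
  refine (tendsto_tsum_of_dominated_convergence summable_exp_neg_nat (fun n => ?_)
    (.of_forall γ_le)).trans_eq (congrArg _ tsum_zero)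
  refine squeeze_zero (g := β n) (fun x => ?_) (fun x => ?_) (Real.tendsto_exp_atBot.comp
    (tendsto_atBot_add_const_left _ _ (tendsto_neg_atTop_atBot.comp ((tendsto_pow_atTop
      two_ne_zero).comp ((tendsto_atTop_add_const_right _ _ tendsto_id).atTop_div_const
        (by positivity))))))
  all_goals unfold γ; split_ifs <;> first | rfl | exact (Real.exp_pos _).le

noncomputable def FF (c : ℕ → ℂ) (w : ℂ) : ℂ := ∑' n, c n * fn n w

lemma FF_near {c : ℕ → ℂ} {M : ℝ} (hc : ∀ n, ‖c n‖ ≤ M) (w : D) {k : ℕ}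
    (hk : ∀ n ≠ k, ¬ Ex n (lam w).re) : ‖FF c w - c k * fn k w‖ ≤ M * ∑' n, γ (lam w).re n := by
  have M0 := (norm_nonneg _).trans (hc 0)
  have h1 : ∀ n, ‖c n * fn n w‖ ≤ M * β n (lam w).re := fun n => norm_mul_le_of_le (hc n) (fn_le n w)
  rw [FF, (((β_sum _).mul_left M).of_norm_bounded h1).tsum_eq_add_tsum_ite k, add_sub_cancel_left,
    ← tsum_mul_left]
  refine tsum_of_norm_bounded ((summable_exp_neg_nat.of_norm_bounded (γ_le _)).mul_left M).hasSum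
    fun n => ?_
  split_ifs with h
  · unfold γ; split_ifs <;> simp [M0, mul_nonneg, β, Real.exp_nonneg]
  · rw [γ, if_neg (hk n h)]; exact h1 n

lemma FF_bd {c : ℕ → ℂ} {M : ℝ} (hc : ∀ n, ‖c n‖ ≤ M) : ∃ C, ∀ w : D, ‖FF c w‖ ≤ C := by
  have M0 := (norm_nonneg _).trans (hc 0)
  refine ⟨M * (rexp 3 * ∑' n : ℕ, rexp (-n)) + (M * rexp 1 + M * ∑' n : ℕ, rexp (-n)), fun w => ?_⟩
  have s0 : 0 ≤ ∑' n : ℕ, rexp (-n) := tsum_nonneg fun _ => (Real.exp_pos _).le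
  rcases le_total (lam w).re 2 with h | h
  · refine le_add_of_le_of_nonneg ?_ (by positivity)
    rw [← tsum_mul_left, ← tsum_mul_left]
    exact tsum_of_norm_bounded ((summable_exp_neg_nat.mul_left _).mul_left M).hasSum fun n =>
      norm_mul_le_of_le (hc n) ((fn_le n w).trans ((β_loc n h).trans_eq (by norm_num)))
  · obtain ⟨k, -, hk⟩ := Ex_one (lam w).re 0 (by norm_num; exact h)
    refine le_add_of_nonneg_of_le (by positivity) ((norm_le_insert' _ _).trans (add_le_add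
      (norm_mul_le_of_le (hc k) ((fn_le k w).trans ((β_le _ _).trans (Real.exp_le_exp.2
        (div_le_one_of_le₀ (by simp) (by positivity)))))) ((FF_near hc w hk).trans ?_)))
    exact mul_le_mul_of_nonneg_left ((le_abs_self _).trans
      (tsum_of_norm_bounded summable_exp_neg_nat.hasSum (γ_le _))) M0

lemma lam_d : DifferentiableOn ℂ lam (ball 0 1) := fun w hw =>
  (lam_diff (ball_subset_closedBall hw) (by rintro rfl; simp at hw)
    (by rintro rfl; simp at hw)).differentiableWithinAt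

lemma FF_diff {c : ℕ → ℂ} {M : ℝ} (hc : ∀ n, ‖c n‖ ≤ M) : DifferentiableOn ℂ (FF c) (ball 0 1) := by
  intro z hz
  have h1 : IsOpen (ball 0 1 ∩ (fun w => (lam w).re) ⁻¹' Set.Iio ((lam z).re + 1)) :=
    (continuous_re.comp_continuousOn lam_d.continuousOn).isOpen_inter_preimage isOpen_ball isOpen_Iio
  refine ((differentiableOn_tsum_of_summable_norm ((summable_exp_neg_nat.mul_left _).mul_left M)
    (fun n => ?_) h1 fun n w hw => norm_mul_le_of_le (hc n) ((fn_le n ⟨w, hw.1⟩).trans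
      (β_loc n (le_of_lt hw.2)))).differentiableAt (h1.mem_nhds ⟨hz, by simp⟩)).differentiableWithinAt
  have := lam_d.mono (Set.inter_subset_left (t := (fun w => (lam w).re) ⁻¹' Set.Iio ((lam z).re + 1)))
  unfold fn; fun_prop

noncomputable def 𝓕 : Filter D := comap (fun w => (lam w).re) atTop

lemma near {ε : ℝ} (hε : 0 < ε) (N : ℕ) : ∀ᶠ w : D in 𝓕, ∃ k ≥ N, ‖fn k w‖ ≤ 1 + ε ∧
    ∀ c M, (∀ n, ‖c n‖ ≤ M) → ‖FF c w - c k * fn k w‖ ≤ M * ε := by
  obtain ⟨N', h1⟩ := eventually_atTop.1 (((Real.continuous_exp.tendsto' 0 1 (by simp)).comp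
    tendsto_one_div_add_atTop_nhds_zero_nat).eventually (ge_mem_nhds (lt_add_of_pos_right 1 hε)))
  filter_upwards [tendsto_comap.eventually ((γ_tend.eventually (ge_mem_nhds hε)).and
    (eventually_ge_atTop _))] with w hw
  obtain ⟨k, h2, h3⟩ := Ex_one _ (max N N') hw.2
  exact ⟨k, le_of_max_le_left h2, (fn_le k w).trans ((β_le _ _).trans (h1 k (le_of_max_le_right h2))),
    fun c M hc => (FF_near hc w h3).trans (mul_le_mul_of_nonneg_left hw.1
      ((norm_nonneg _).trans (hc 0)))⟩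

noncomputable def zs (n : ℕ) : D := ⟨_, (lam_surj ((n + 1) ^ 3)).choose_spec.1⟩

lemma zs_lam (n : ℕ) : lam (zs n) = ((n + 1) ^ 3 : ℝ) + π / 4 * I :=
  (lam_surj ((n + 1) ^ 3)).choose_spec.2

lemma zs_tend : Tendsto zs atTop 𝓕 := by
  refine tendsto_comap_iff.2 (tendsto_atTop_mono (fun n => ?_) tendsto_natCast_atTop_atTop)
  have h0 := n.cast_nonneg (α := ℝ)
  simp only [Function.comp, zs_lam, add_re, ofReal_re, mul_I_re, div_ofNat_im, ofReal_im]
  nlinarith [pow_nonneg h0 2, pow_nonneg h0 3]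

lemma FF_zs {c : ℕ → ℂ} {M : ℝ} (hc : ∀ n, ‖c n‖ ≤ M) :
    Tendsto (fun n => FF c (zs n) - c n) atTop (𝓝 0) := by
  refine squeeze_zero_norm' ?_ (by
    simpa using (γ_tend.comp (tendsto_comap_iff.1 zs_tend)).const_mul M)
  filter_upwards [(tendsto_comap_iff.1 zs_tend).eventually (eventually_ge_atTop 2)] with n hn
  obtain ⟨k, -, hk⟩ := Ex_one (lam (zs n)).re 0 (by norm_num; exact hn)
  obtain rfl : n = k := by
    by_contra h
    exact hk n h (by simp [Ex, zs_lam, -ofReal_pow]; positivity)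
  simpa [fn, zs_lam] using FF_near hc (zs n) hk

lemma lam_exp (w : D) : ‖1 + (w : ℂ)‖ = rexp (2 * (lam w).re) * ‖1 - (w : ℂ)‖ := by
  have hw := w.2
  have h1 : (w : ℂ) ≠ 1 := fun h => by simp [h] at hw
  have h2 : (w : ℂ) ≠ -1 := fun h => by simp [h] at hw
  rw [show 2 * (lam w).re = Real.log ‖(1 + (w : ℂ)) / (1 - w)‖ by simp [lam, log_re]; ring,
    Real.exp_log (norm_pos_iff.2 (s_ne h1 h2)), norm_div,
    div_mul_cancel₀ _ (norm_ne_zero_iff.2 (sub_ne_zero.2 h1.symm))]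

lemma 𝓕_one : Tendsto (fun w : D => (w : ℂ)) 𝓕 (𝓝 1) := by
  rw [tendsto_iff_norm_sub_tendsto_zero]
  refine squeeze_zero (fun _ => norm_nonneg _) (fun w => ?_) (by
    simpa [𝓕] using (tendsto_inv_atTop_zero.comp (Real.tendsto_exp_atTop.comp
      ((tendsto_comap (f := fun w : D => (lam w).re)).const_mul_atTop two_pos))).mul_const 2)
  rw [norm_sub_rev, le_inv_mul_iff₀ (Real.exp_pos _), ← lam_exp]
  exact (norm_add_le _ _).trans (by linarith [norm_one (α := ℂ), mem_ball_zero_iff.1 w.2])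

lemma away {U : Set D} (hU : U ∈ 𝓕) : ∃ q < 1, 0 ≤ q ∧ ∀ w ∉ U, ‖(1 + (w : ℂ)) / 2‖ ≤ q := by
  obtain ⟨V, h1, h2⟩ := mem_comap.1 hU
  obtain ⟨y, hy⟩ := mem_atTop_sets.1 h1
  have h0 := Real.exp_pos (2 * y)
  obtain ⟨E, hE⟩ : ∃ E, E = rexp (2 * y) := ⟨_, rfl⟩
  rw [← hE] at h0
  refine ⟨√(E ^ 2 / (E ^ 2 + 1)), (sqrt_lt' one_pos).2 ((div_lt_iff₀ (by positivity)).2 (by simp)),
    sqrt_nonneg _, fun w hw => le_sqrt_of_sq_le ?_⟩
  have h3 : ‖1 + (w : ℂ)‖ ≤ E * ‖1 - (w : ℂ)‖ := by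
    rw [lam_exp, hE]; gcongr
    exact le_of_not_ge fun h => hw (h2 (hy _ h))
  have h4 := parallelogram_law_with_norm ℝ (1 : ℂ) w
  have h5 := mem_ball_zero_iff.1 w.2
  rw [norm_div, le_div_iff₀ (by positivity)]
  have h6 := pow_le_pow_left₀ (norm_nonneg _) h3 2
  have h7 : ‖1 - (w : ℂ)‖ ^ 2 ≤ 4 - ‖1 + (w : ℂ)‖ ^ 2 := by
    rw [norm_one] at h4; nlinarith [norm_nonneg (w : ℂ)]
  simp only [Complex.norm_ofNat]
  nlinarith [mul_le_mul_of_nonneg_left h7 (sq_nonneg E)]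

end Pool.Agent.H.MP_a7579f_an
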