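import Pool.Agent.H.MP_a7579f_an.B
namespace Pool.Agent.H.MP_a7579f_an
open Metric Filter Topology Complex BoundedContinuousFunction

abbrev BC := D →ᵇ ℂ
abbrev L := ℕ →ᵇ ℂ

noncomputable def mk (F : ℂ → ℂ) (h : DifferentiableOn ℂ F (ball 0 1))
    (hb : ∃ C, ∀ w : D, ‖F w‖ ≤ C) : BC :=
  .ofNormedAddCommGroup (fun w : D => F w) h.continuousOn.restrict hb.choose hb.choose_spec

def H : Subalgebra ℂ BC where
  carrier := {f | ∃ F : ℂ → ℂ, DifferentiableOn ℂ F (ball 0 1) ∧ ∀ z : D, F z = f z}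
  mul_mem' := fun ⟨F, h1, h2⟩ ⟨G, h3, h4⟩ => ⟨F * G, h1.mul h3, fun z => by simp [h2, h4]⟩
  add_mem' := fun ⟨F, h1, h2⟩ ⟨G, h3, h4⟩ => ⟨F + G, h1.add h3, fun z => by simp [h2, h4]⟩
  algebraMap_mem' c := ⟨fun _ => c, differentiableOn_const c, fun z => by simp⟩

lemma H_cl : IsClosed (H : Set BC) := by
  refine isClosed_of_closure_subset fun f hf => ?_
  obtain ⟨u, h1, h2⟩ := mem_closure_iff_seq_limit.1 hf
  choose F h3 h4 using h1
  have h5 : ∀ z : D, Function.extend Subtype.val f 0 (z : ℂ) = f z := fun z =>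
    Subtype.val_injective.extend_apply _ _ _
  refine ⟨_, (TendstoUniformlyOn.tendstoLocallyUniformlyOn (p := atTop) (F := F) ?_).differentiableOn
    (.of_forall h3) isOpen_ball, h5⟩
  rw [tendstoUniformlyOn_iff_tendstoUniformly_comp_coe]
  convert tendsto_iff_tendstoUniformly.1 h2 using 1
  · funext n z; exact h4 n z
  · funext z; exact h5 z

lemma FF_sum (c : L) (w : D) : Summable fun n => c n * fn n w :=
  ((β_sum _).mul_left ‖c‖).of_norm_bounded fun n =>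
    norm_mul_le_of_le (c.norm_coe_le_norm n) (fn_le n w)

noncomputable def F : L →ₗ[ℂ] BC where
  toFun c := mk (FF c) (FF_diff c.norm_coe_le_norm) (FF_bd c.norm_coe_le_norm)
  map_add' c d := by
    ext w
    show FF (c + d) w = FF c w + FF d w
    simp only [FF, Pi.add_apply, add_mul]
    exact (FF_sum c w).tsum_add (FF_sum d w)
  map_smul' a c := by
    ext w
    show FF (a • c) w = a * FF c w
    simp only [FF, Pi.smul_apply, smul_eq_mul, mul_assoc]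
    exact tsum_mul_left

lemma F_H (c : L) : F c ∈ H := ⟨_, FF_diff c.norm_coe_le_norm, fun _ => rfl⟩

noncomputable def ev : BC →ₐ[ℂ] L where
  toFun f := f.compContinuous ⟨zs, continuous_of_discreteTopology⟩
  map_one' := rfl
  map_mul' _ _ := rfl
  map_zero' := rfl
  map_add' _ _ := rfl
  commutes' _ := rfl

noncomputable def G (m : ℕ) : L :=
  ofNormedAddCommGroupDiscrete (fun n => g m (xs n)) (g_bd m).choose fun _ => (g_bd m).choose_spec _

lemma G_eq (m n : ℕ) : G m n = g m (xs n) := rfl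

lemma le_lim {a B K : ℝ} (h : ∀ ε > 0, a ≤ B + K * ε) : a ≤ B := by
  have : Tendsto (fun ε : ℝ => B + K * ε) (𝓝[>] 0) (𝓝 B) :=
    ((by fun_prop : Continuous fun ε : ℝ => B + K * ε).tendsto' 0 B (by simp)).mono_left
      nhdsWithin_le_nhds
  exact ge_of_tendsto this (eventually_nhdsWithin_of_forall h)

lemma small (K : ℝ) {ε : ℝ} (hε : 0 < ε) : ∃ δ > 0, δ ≤ 1 ∧ K * δ ≤ ε := by
  have : Tendsto (fun ε : ℝ => K * ε) (𝓝[>] 0) (𝓝 0) :=
    ((by fun_prop : Continuous fun ε : ℝ => K * ε).tendsto' 0 0 (by simp)).mono_left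
      nhdsWithin_le_nhds
  obtain ⟨δ, h1, h2⟩ :=
    ((this.eventually (ge_mem_nhds hε)).and (Ioc_mem_nhdsGT one_pos)).exists
  exact ⟨δ, h2.1, h2.2, h1⟩

def Y : Subalgebra ℂ L where
  carrier := {c | ∀ ε > 0, ∃ m, ∀ᶠ n in atTop, ‖c n - G m n‖ ≤ ε}
  mul_mem' := fun {c d} hc hd ε hε => by
    obtain ⟨δ, h0, h1, h2⟩ := small (‖c‖ + (‖d‖ + 1)) hε
    obtain ⟨i, hi⟩ := hc δ h0
    obtain ⟨j, hj⟩ := hd δ h0
    obtain ⟨k, hk⟩ := g_mul i j
    refine ⟨k, (hi.and hj).mono fun n h => ?_⟩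
    rw [G_eq, hk, ← G_eq, ← G_eq, show (c * d) n - G i n * G j n =
      c n * (d n - G j n) + (d n - (d n - G j n)) * (c n - G i n) by simp; ring]
    exact (norm_add_le_of_le (norm_mul_le_of_le (c.norm_coe_le_norm n) h.2) (norm_mul_le_of_le
      (norm_sub_le_of_le (d.norm_coe_le_norm n) (h.2.trans h1)) h.1)).trans (by linarith)
  add_mem' := fun {c d} hc hd ε hε => by
    obtain ⟨i, hi⟩ := hc _ (half_pos hε)
    obtain ⟨j, hj⟩ := hd _ (half_pos hε)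
    obtain ⟨k, hk⟩ := g_add i j
    refine ⟨k, (hi.and hj).mono fun n h => ?_⟩
    rw [G_eq, hk, ← G_eq, ← G_eq, show (c + d) n - (G i n + G j n) =
      (c n - G i n) + (d n - G j n) by simp; ring]
    exact (norm_add_le_of_le h.1 h.2).trans (by linarith)
  algebraMap_mem' c ε hε := by
    obtain ⟨k, κ, h1, h2⟩ := g_const c hε
    exact ⟨k, .of_forall fun n => by simpa [G_eq, h2, norm_sub_rev] using h1.le⟩

lemma Y_cl : IsClosed (Y : Set L) := by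
  refine isClosed_of_closure_subset fun c hc ε hε => ?_
  obtain ⟨d, h1, h2⟩ := Metric.mem_closure_iff.1 hc _ (half_pos hε)
  obtain ⟨m, hm⟩ := h1 _ (half_pos hε)
  refine ⟨m, hm.mono fun n h => (norm_sub_le_norm_sub_add_norm_sub _ (d n) _).trans ?_⟩
  linarith [dist_coe_le_dist (f := c) (g := d) n, dist_eq_norm (c n) (d n)]

lemma G_Y (m : ℕ) : G m ∈ Y := fun ε hε => ⟨m, .of_forall fun n => by simpa using hε.le⟩

lemma lim_Y {c : L} {a : ℂ} (h : Tendsto c atTop (𝓝 a)) : c ∈ Y := fun ε hε => by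
  obtain ⟨k, κ, h1, h2⟩ := g_const a hε
  refine ⟨k, ?_⟩
  simp only [G_eq, h2]
  exact ((h.sub_const κ).norm.eventually (gt_mem_nhds (by rwa [norm_sub_rev]))).mono fun _ => le_of_lt

noncomputable def X : Subalgebra ℂ BC := H ⊓ Y.comap ev

lemma X_cl : IsClosed (X : Set BC) := H_cl.inter (Y_cl.preimage (continuous_compContinuous _))

def J (f : BC) : Prop := f ∈ H ∧ Tendsto (ev f) atTop (𝓝 0)

lemma J.X {f : BC} (h : J f) : f ∈ X := ⟨h.1, lim_Y h.2⟩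

lemma J.mul {f j : BC} (h : J j) (hf : f ∈ H) : J (j * f) :=
  ⟨mul_mem h.1 hf, squeeze_zero_norm (fun n => norm_mul_le_of_le le_rfl (f.norm_coe_le_norm _))
    ((h.2.norm.mul_const ‖f‖).trans_eq (by simp))⟩

lemma F_ev (c : L) : Tendsto (fun n => ev (F c) n - c n) atTop (𝓝 0) := FF_zs c.norm_coe_le_norm

lemma F_X {c : L} (h : c ∈ Y) : F c ∈ X :=
  ⟨F_H c, by simpa using add_mem (lim_Y (c := ev (F c) - c) (F_ev c)) h⟩

lemma J_F {f : BC} (h : f ∈ H) : J (F (ev f) - f) := ⟨sub_mem (F_H _) h, F_ev _⟩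

lemma A_X {F : ℂ → ℂ} (h1 : ContinuousOn F (closedBall 0 1)) (h2 : DifferentiableOn ℂ F (ball 0 1)) :
    ∃ f ∈ X, Tendsto (ev f) atTop (𝓝 (F 1)) ∧ ∀ z : D, f z = F z := by
  obtain ⟨C, hC⟩ := (isCompact_closedBall _ _).exists_bound_of_continuousOn h1
  have h3 : Tendsto (ev (mk F h2 ⟨C, fun w => hC _ (ball_subset_closedBall w.2)⟩)) atTop (𝓝 (F 1)) :=
    (h1 1 (by simp)).tendsto.comp (tendsto_nhdsWithin_iff.2 ⟨𝓕_one.comp zs_tend,
      .of_forall fun n => ball_subset_closedBall (zs n).2⟩)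
  exact ⟨_, ⟨⟨F, h2, fun _ => rfl⟩, lim_Y h3⟩, h3, fun _ => rfl⟩

lemma P_ex : ∃ P ∈ X, J (P - 1) ∧ ‖P‖ ≤ 1 ∧ ∀ z : D, P z = (1 + z) / 2 := by
  obtain ⟨P, h1, h2, h3⟩ := A_X (F := fun z => (1 + z) / 2) (by fun_prop) (by fun_prop)
  refine ⟨P, h1, ⟨sub_mem h1.1 (one_mem _), (h2.sub_const 1).trans_eq (by simp)⟩,
    (norm_le zero_le_one).2 fun z => ?_, h3⟩
  rw [h3, norm_div, div_le_one (by simp)]
  exact norm_add_le_of_le (norm_one.le) (mem_ball_zero_iff.1 z.2).le |>.trans (by norm_num)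

noncomputable def P : BC := P_ex.choose
lemma P_X : P ∈ X := P_ex.choose_spec.1
lemma P_J : J (P - 1) := P_ex.choose_spec.2.1
lemma P_le : ‖P‖ ≤ 1 := P_ex.choose_spec.2.2.1
lemma P_eq (z : D) : P z = (1 + z) / 2 := P_ex.choose_spec.2.2.2 z

def Ev (f : BC) (B : ℝ) : Prop := ∀ ε > 0, ∀ᶠ w in 𝓕, ‖f w‖ ≤ B + ε

lemma Ev.loc {f : BC} {B ε : ℝ} (h : Ev f B) (hB : 0 ≤ B) (hε : 0 < ε) :
    ∃ k : ℕ, ‖f * P ^ k‖ ≤ B + ε := by
  obtain ⟨q, h1, h0, h2⟩ := away (h ε hε)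
  obtain ⟨k, hk⟩ := (((tendsto_pow_atTop_nhds_zero_of_lt_one h0 h1).const_mul ‖f‖).eventually
    (ge_mem_nhds (by simpa using hε))).exists
  refine ⟨k, (norm_le (by positivity)).2 fun w => ?_⟩
  rw [mul_apply, pow_apply]
  by_cases hw : ‖f w‖ ≤ B + ε
  · simpa using norm_mul_le_of_le hw ((norm_pow _ k).trans_le
      (pow_le_one₀ (norm_nonneg _) ((P.norm_coe_le_norm w).trans P_le)))
  · exact (norm_mul_le_of_le (f.norm_coe_le_norm w) ((norm_pow _ k).trans_le (pow_le_pow_left₀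
      (norm_nonneg _) (P_eq w ▸ h2 w hw) k))).trans (by linarith)

lemma F_le {c : L} {B : ℝ} (h : ∀ᶠ n in atTop, ‖c n‖ ≤ B) : Ev (F c) B := fun ε hε => by
  obtain ⟨N, hN⟩ := eventually_atTop.1 h
  obtain ⟨δ, h0, -, h2⟩ := small (B + ‖c‖) hε
  filter_upwards [near h0 N] with w ⟨k, h3, h4, h5⟩
  exact (norm_le_insert' _ _).trans ((add_le_add (norm_mul_le_of_le (hN k h3) h4)
    (h5 c _ c.norm_coe_le_norm)).trans (by linarith))

lemma F_mul (c d : L) : Ev (F c * F d - F (c * d) * F 1) 0 := fun ε hε => by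
  obtain ⟨δ, h0, -, h2⟩ := small (‖F c‖ * (‖d‖ + ‖d‖ * ‖(1 : L)‖) +
    (‖c * d‖ + ‖d‖ * ‖c‖) * ‖F 1‖) hε
  filter_upwards [near h0 0] with w ⟨k, _, _, h⟩
  have h1 : ∀ c : L, ‖F c w - c k * fn k w‖ ≤ ‖c‖ * δ := fun c => h c _ c.norm_coe_le_norm
  rw [show (F c * F d - F (c * d) * F 1) w = F c w * ((F d w - d k * fn k w) - d k *
    (F 1 w - (1 : L) k * fn k w)) - ((F (c * d) w - (c * d) k * fn k w) - d k *
      (F c w - c k * fn k w)) * F 1 w by simp; ring]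
  exact (norm_sub_le_of_le (norm_mul_le_of_le ((F c).norm_coe_le_norm w) (norm_sub_le_of_le (h1 _)
    (norm_mul_le_of_le (d.norm_coe_le_norm k) (h1 _)))) (norm_mul_le_of_le (norm_sub_le_of_le (h1 _)
    (norm_mul_le_of_le (d.norm_coe_le_norm k) (h1 _))) ((F 1).norm_coe_le_norm w))).trans
    (by linarith)

lemma F_cor : ∀ᶠ w in 𝓕, 1 / 4 ≤ ‖F (G 0) w‖ ∨ 1 / 4 ≤ ‖F 1 w - 1‖ := by
  have h0 : ∀ n, ‖G 0 n‖ = 1 := fun n => by rw [G_eq, g, MP_e9aa5f_an.e_norm]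
  filter_upwards [near (ε := 1 / 4) (by norm_num) 0] with w ⟨k, _, _, h⟩
  have h1 := h (G 0) 1 fun n => (h0 n).le
  have h2 := h (1 : L) 1 fun n => by simp
  have h3 := norm_le_insert (F (G 0) w) (G 0 k * fn k w)
  have h4 := norm_le_insert' (F 1 w) ((1 : L) k * fn k w)
  have h5 := norm_le_insert (F 1 w) 1
  rw [norm_mul, h0] at h3
  rw [norm_mul, coe_one, Pi.one_apply] at h4
  change ‖F (G 0) w - _‖ ≤ _ at h1
  change ‖F 1 w - 1 * _‖ ≤ _ at h2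
  rw [norm_one] at h4 h5
  by_contra! h6
  linarith [h6.1, h6.2]

end Pool.Agent.H.MP_a7579f_an
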