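import Pool.Agent.H.MP_a7579f_an.C
namespace Pool.Agent.H.MP_a7579f_an
open Metric Filter Topology Complex BoundedContinuousFunction WeakDual

structure Ch (S : Subalgebra ℂ BC) (τ : BC →ₗ[ℂ] ℂ) : Prop where
  one : τ 1 = 1
  mul : ∀ {f g}, f ∈ S → g ∈ S → τ (f * g) = τ f * τ g

variable {S : Subalgebra ℂ BC} {τ χ ψ : BC →ₗ[ℂ] ℂ}

noncomputable def Ch.hom (h : Ch S τ) : S →ₐ[ℂ] ℂ :=
  .ofLinearMap (τ ∘ₗ S.val.toLinearMap) h.one fun f g => h.mul f.2 g.2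

instance : Nonempty D := ⟨zs 0⟩

lemma Ch.le (h : Ch S τ) (hS : IsClosed (S : Set BC)) {f : BC} (hf : f ∈ S) : ‖τ f‖ ≤ ‖f‖ := by
  have : CompleteSpace S := hS.completeSpace_coe
  exact (AlgHom.norm_apply_le_self_mul_norm_one h.hom ⟨f, hf⟩).trans_eq
    (by rw [show ‖(1 : S)‖ = 1 from norm_one (α := BC), mul_one])

lemma Ch.pow (h : Ch S τ) {f : BC} (hf : f ∈ S) (k : ℕ) : τ (f ^ k) = τ f ^ k :=
  map_pow h.hom ⟨f, hf⟩ k

lemma toCh (φ : characterSpace ℂ S) : ∃ τ, Ch S τ ∧ ∀ f : S, τ f = φ f := by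
  obtain ⟨τ, h⟩ := LinearMap.exists_extend (p := S.toSubmodule)
    (CharacterSpace.toAlgHom φ).toLinearMap
  have h1 : ∀ f : S, τ f = φ f := fun f => LinearMap.congr_fun h f
  exact ⟨τ, ⟨(h1 1).trans (map_one φ), fun {f g} hf hg => (h1 (⟨f, hf⟩ * ⟨g, hg⟩)).trans
    ((map_mul φ _ _).trans (by rw [← h1, ← h1]))⟩, h1⟩

lemma Ch.evle (h : Ch S τ) (hS : IsClosed (S : Set BC)) (hP : P ∈ S) (h1 : 1 ≤ ‖τ P‖) {f : BC}
    (hf : f ∈ S) {B : ℝ} (hB : 0 ≤ B) (h2 : Ev f B) : ‖τ f‖ ≤ B :=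
  le_of_forall_pos_le_add fun ε hε => by
    obtain ⟨k, hk⟩ := h2.loc hB hε
    refine le_trans ?_ ((h.le hS (mul_mem hf (pow_mem hP k))).trans hk)
    rw [h.mul hf (pow_mem hP k), h.pow hP, norm_mul, norm_pow]
    exact le_mul_of_one_le_right (norm_nonneg _) (one_le_pow₀ h1)

lemma Ch.Fmul (h : Ch S τ) (hS : IsClosed (S : Set BC)) (hP : P ∈ S) (h1 : 1 ≤ ‖τ P‖) {c d : L}
    (hc : F c ∈ S) (hd : F d ∈ S) (hcd : F (c * d) ∈ S) (h0 : F 1 ∈ S) :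
    τ (F c) * τ (F d) = τ (F (c * d)) * τ (F 1) := by
  have := h.evle hS hP h1 (sub_mem (mul_mem hc hd) (mul_mem hcd h0)) le_rfl (F_mul c d)
  rwa [map_sub, h.mul hc hd, h.mul hcd h0, norm_le_zero_iff, sub_eq_zero] at this

lemma inv_ex (hS : IsClosed (S : Set BC)) {t : BC} (h : t ∈ S) (h1 : ‖t‖ < 1) :
    ∃ v ∈ S, (1 - t) * v = 1 := by
  have : CompleteSpace S := hS.completeSpace_coe
  obtain ⟨v, hv⟩ := (Units.oneSub (⟨t, h⟩ : S) h1).isUnit.exists_right_inv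
  exact ⟨v, v.2, congrArg Subtype.val hv⟩

lemma mob {f : BC} (hf : f ∈ X) (h1 : ‖f‖ ≤ 1) {a : ℝ} (h0 : 0 ≤ a) (ha : a < 1) :
    ∃ h ∈ X, ‖h‖ ≤ 1 ∧ ∀ τ, Ch X τ → τ h * (1 - a * τ f) = τ f - a := by
  obtain ⟨v, hv, h2⟩ := inv_ex X_cl (X.smul_mem hf (a : ℂ)) (((norm_smul_le _ _).trans
    (mul_le_of_le_one_right (norm_nonneg _) h1)).trans_lt (by simpa [abs_of_nonneg h0]))
  have h3 : f - (a : ℂ) • 1 ∈ X := sub_mem hf (X.smul_mem (one_mem _) _)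
  have h4 : ∀ τ, Ch X τ → τ ((f - (a : ℂ) • 1) * v) * (1 - a * τ f) = τ f - a := fun τ h => by
    have := congrArg τ h2
    rw [h.mul (sub_mem (one_mem _) (X.smul_mem hf _)) hv] at this
    rw [h.mul h3 hv]
    simp only [map_sub, map_smul, h.one, smul_eq_mul, mul_one] at this ⊢
    linear_combination (τ f - a) * this
  refine ⟨_, mul_mem h3 hv, (norm_le zero_le_one).2 fun w => ?_, h4⟩
  have h5 := congrArg norm (h4 (evalCLM ℂ w).toLinearMap ⟨rfl, fun _ _ => rfl⟩)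
  change ‖_ * (1 - a * f w)‖ = ‖f w - a‖ at h5
  have h6 := (f.norm_coe_le_norm w).trans h1
  generalize f w = z at h5 h6
  have h7 : ‖z - a‖ ≤ ‖1 - a * z‖ := by
    rw [← sq_le_one_iff₀ (norm_nonneg _), Complex.sq_norm, normSq_apply] at h6
    rw [← sq_le_sq₀ (norm_nonneg _) (norm_nonneg _), Complex.sq_norm, Complex.sq_norm]
    simp [normSq_apply]
    nlinarith [mul_nonneg (sub_nonneg.2 h6) (show 0 ≤ 1 - a * a by nlinarith)]
  have h8 : 0 < ‖1 - a * z‖ := norm_pos_iff.2 fun h => by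
    have := congrArg norm (sub_eq_zero.1 h)
    rw [norm_one, norm_mul, norm_real, Real.norm_of_nonneg h0] at this
    nlinarith
  rw [norm_mul] at h5
  exact le_of_mul_le_mul_right (h5.trans_le (by simpa using h7)) h8

lemma sep (hχ : Ch X χ) (hψ : Ch X ψ) {c q : ℝ} (hc : c < 2)
    (h : ∀ f ∈ X, ‖f‖ ≤ 1 → ‖χ f - ψ f‖ ≤ c) (hq : q < 1) (h1 : 1 ≤ ‖χ P‖)
    (h2 : ∀ η > 0, ∃ f ∈ X, Ev f (1 + η) ∧ 1 - η ≤ ‖χ f‖ ∧ ‖ψ f‖ ≤ q) : False := by
  obtain ⟨b, b0, b1, b2⟩ := small (2 / (1 - q)) (half_pos (half_pos (sub_pos.2 hc)))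
  obtain ⟨η, e0, e1, e2⟩ := small (12 / b) (half_pos (sub_pos.2 hc))
  obtain ⟨f, h3, h4, h5, h6⟩ := h2 η e0
  obtain ⟨k, hk⟩ := h4.loc (by positivity) e0
  have h7 := mul_mem h3 (pow_mem P_X k)
  have h8 : 1 - η ≤ ‖χ (f * P ^ k)‖ := by
    rw [hχ.mul h3 (pow_mem P_X k), hχ.pow P_X, norm_mul, norm_pow]
    exact h5.trans (le_mul_of_one_le_right (norm_nonneg _) (one_le_pow₀ h1))
  have h9 : ‖ψ (f * P ^ k)‖ ≤ q := by
    rw [hψ.mul h3 (pow_mem P_X k), hψ.pow P_X, norm_mul, norm_pow]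
    exact (mul_le_of_le_one_right (norm_nonneg _) (pow_le_one₀ (norm_nonneg _)
      ((hψ.le X_cl P_X).trans P_le))).trans h6
  generalize f * P ^ k = f at hk h7 h8 h9
  have h10 := (hχ.le X_cl h7).trans hk
  obtain ⟨μ, hμ⟩ : ∃ μ : ℂ, μ = (starRingEnd ℂ) (χ f) / ((1 + η + η) ^ 2 : ℝ) := ⟨_, rfl⟩
  have m1 : ‖μ‖ * (1 + η + η) ≤ 1 := by
    rw [hμ, norm_div, norm_conj, norm_real, Real.norm_of_nonneg (by positivity), div_mul_eq_mul_div,
      div_le_one (by positivity), sq]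
    gcongr
  have m2 : ‖μ • f‖ ≤ 1 := (norm_smul_le _ _).trans (le_trans (by gcongr) m1)
  obtain ⟨r, r1, r2, r3⟩ := mob (X.smul_mem h7 μ) m2 (a := 1 - b) (by linarith) (by linarith)
  have s1 := r3 _ hχ
  have s2 := r3 _ hψ
  have s3 : ‖ψ (μ • f)‖ ≤ q := by
    rw [map_smul, norm_smul]
    exact (mul_le_of_le_one_left (norm_nonneg _) (by nlinarith [norm_nonneg μ])).trans h9
  have s4 : ‖1 - χ (μ • f)‖ ≤ 6 * η := by
    rw [map_smul, smul_eq_mul, hμ, div_mul_eq_mul_div, mul_comm, mul_conj, normSq_eq_norm_sq,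
      ← ofReal_div, ← ofReal_one, ← ofReal_sub, norm_real, Real.norm_of_nonneg
        (sub_nonneg.2 (div_le_one_of_le₀ (by gcongr) (by positivity))), sub_le_comm,
        le_div_iff₀ (by positivity)]
    nlinarith [pow_le_pow_left₀ (by linarith) h8 2, pow_pos e0 2, pow_pos e0 3]
  have s5 := (hχ.le X_cl (X.smul_mem h7 μ)).trans m2
  have s6 := h r r1 r2
  generalize χ (μ • f) = s at s1 s4 s5
  generalize ψ (μ • f) = t at s2 s3
  have n1 : ∀ z : ℂ, 1 - (1 - b) * ‖z‖ ≤ ‖1 - ((1 - b : ℝ) : ℂ) * z‖ := fun z => by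
    simpa only [norm_one, norm_mul, norm_real, Real.norm_of_nonneg (sub_nonneg.2 b1)] using
      norm_sub_norm_le 1 (((1 - b : ℝ) : ℂ) * z)
  have t1 : ‖1 - χ r‖ ≤ 12 / b * η := by
    have : (1 - χ r) * (1 - ((1 - b : ℝ) : ℂ) * s) = ((2 - b : ℝ) : ℂ) * (1 - s) := by
      push_cast at s1 ⊢; linear_combination -s1
    have := congrArg norm this
    rw [norm_mul, norm_mul, norm_real, Real.norm_of_nonneg (by linarith)] at this
    rw [div_mul_eq_mul_div, le_div_iff₀ b0]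
    nlinarith [mul_le_mul_of_nonneg_left (show b ≤ _ from le_trans (by nlinarith) (n1 s))
      (norm_nonneg (1 - χ r)), norm_nonneg (1 - s)]
  have t2 : ‖1 + ψ r‖ ≤ 2 / (1 - q) * b := by
    have : (1 + ψ r) * (1 - ((1 - b : ℝ) : ℂ) * t) = b * (1 + t) := by
      push_cast at s2 ⊢; linear_combination s2
    have := congrArg norm this
    rw [norm_mul, norm_mul, norm_real, Real.norm_of_nonneg b0.le] at this
    rw [div_mul_eq_mul_div, le_div_iff₀ (sub_pos.2 hq)]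
    nlinarith [mul_le_mul_of_nonneg_left (show 1 - q ≤ _ from le_trans
      (by nlinarith [norm_nonneg t]) (n1 t)) (norm_nonneg (1 + ψ r)),
      norm_add_le_of_le (norm_one (α := ℂ)).le s3]
  have := norm_add_le_of_le (norm_add_le_of_le t1 s6) t2
  rw [show 1 - χ r + (χ r - ψ r) + (1 + ψ r) = 2 by ring, Complex.norm_ofNat] at this
  linarith

end Pool.Agent.H.MP_a7579f_an
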