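import Pool.Agent.H.MP_a7579f_an.E
namespace Pool.Agent.H.MP_a7579f_an
open Metric Filter Topology Complex BoundedContinuousFunction WeakDual

variable {χ ψ : BC →ₗ[ℂ] ℂ}

lemma kill (hχ : Ch X χ) (hn : ¬ ∃ ρ, Ch H ρ ∧ ∀ f ∈ X, ρ f = χ f) {j : BC} (hj : J j) :
    χ j = 0 := by
  by_contra h
  refine hn ⟨(χ j)⁻¹ • χ ∘ₗ LinearMap.mulLeft ℂ j, ⟨by simp [h], fun {f g} hf hg => ?_⟩,
    fun f hf => by simp [hχ.mul hj.X hf, h]⟩
  have h1 := hχ.mul (hj.mul hf).X (hj.mul hg).X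
  rw [show j * f * (j * g) = j * (j * (f * g)) by ring,
    hχ.mul hj.X (hj.mul (mul_mem hf hg)).X] at h1
  simp only [LinearMap.smul_apply, LinearMap.comp_apply, LinearMap.mulLeft_apply, smul_eq_mul]
  field_simp
  linear_combination h1

lemma kill_ev (hk : ∀ j, J j → χ j = 0) {f : BC} (hf : f ∈ H) : χ (F (ev f)) = χ f :=
  sub_eq_zero.1 ((map_sub χ _ _).symm.trans (hk _ (J_F hf)))

lemma kill_one (hχ : Ch X χ) (hk : ∀ j, J j → χ j = 0) : χ P = 1 ∧ χ (F 1) = 1 :=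
  ⟨by simpa [hχ.one, sub_eq_zero] using hk _ P_J, by
    simpa [hχ.one] using kill_ev hk (one_mem H)⟩

lemma Ch.Fpow (hχ : Ch X χ) (h1 : 1 ≤ ‖χ P‖) (h2 : ‖χ (F 1)‖ = 1) {r : L} (hr : r ∈ Y) (k : ℕ) :
    ‖χ (F (r ^ k))‖ = ‖χ (F r)‖ ^ k := by
  induction k with
  | zero => simpa using h2
  | succ k ih =>
    have := congrArg norm (hχ.Fmul X_cl P_X h1 (F_X (pow_mem hr k)) (F_X hr)
      (F_X (mul_mem (pow_mem hr k) hr)) (F_X (one_mem _)))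
    rw [norm_mul, norm_mul, h2, mul_one, ih] at this
    rw [pow_succ, pow_succ, this]

lemma Ch.Fle (hχ : Ch X χ) (h1 : 1 ≤ ‖χ P‖) {c : L} (hc : c ∈ Y) {B : ℝ}
    (h : ∀ᶠ n in atTop, ‖c n‖ ≤ B) : ‖χ (F c)‖ ≤ B :=
  hχ.evle X_cl P_X h1 (F_X hc) ((norm_nonneg _).trans h.exists.choose_spec) (F_le h)

lemma root (hχ : Ch X χ) (hψ : Ch X ψ) (h1 : 1 ≤ ‖χ P‖) (h2 : 1 ≤ ‖ψ P‖) (h3 : χ (F 1) = 1)
    (h4 : ‖ψ (F 1)‖ = 1) {m : ℕ} (hm : χ (F (G m)) * ψ (F 1) ≠ ψ (F (G m))) (η : ℝ) (hη : 0 < η) :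
    ∃ f ∈ X, Ev f (1 + η) ∧ 1 - η ≤ ‖χ f‖ ∧ ‖ψ f‖ ≤ 1 / 2 := by
  have e0 : ψ (F 1) ≠ 0 := by rintro h; simp [h] at h4
  obtain ⟨b, hb⟩ : ∃ b, ψ (F (G m)) = b * ψ (F 1) := ⟨_, (div_mul_cancel₀ _ e0).symm⟩
  have d0 : 0 < ‖χ (F (G m)) - b‖ / 2 :=
    half_pos (norm_pos_iff.2 (sub_ne_zero.2 fun h => hm (by rw [h, hb])))
  obtain ⟨k, k1, k2⟩ := ((tendsto_pow_atTop_atTop_of_one_lt (one_lt_two (α := ℕ))).eventually
    (((tendsto_pow_atTop_atTop_of_one_lt (lt_add_of_pos_right 1 hη)).eventually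
      (eventually_ge_atTop (‖G m‖ + (1 + ‖b‖)))).and ((tendsto_pow_atTop_nhds_zero_of_lt_one
        (le_max_right (1 - η) 0) (max_lt (by linarith) one_pos)).eventually (ge_mem_nhds d0)))).exists
  obtain ⟨i, κ, i1, i2⟩ := g_const (-b)
    (lt_min one_pos (lt_min d0 (pow_pos (half_pos one_pos) (2 ^ k))))
  obtain ⟨j, hj⟩ := g_add m i
  obtain ⟨r, hr⟩ := g_root k j
  have r1 : G r ^ 2 ^ k = G m + κ • 1 := by ext n; simp [G_eq, hr, hj, i2]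
  have N0 : 2 ^ k ≠ 0 := by positivity
  rw [lt_min_iff, lt_min_iff, sub_neg_eq_add] at i1
  refine ⟨_, F_X (G_Y r), F_le (.of_forall fun n => le_of_pow_le_pow_left₀ N0 (by positivity) ?_),
    (le_max_left _ 0).trans (le_of_pow_le_pow_left₀ N0 (norm_nonneg _) (k2.trans ?_)),
    le_of_pow_le_pow_left₀ N0 (by positivity) ?_⟩
  · rw [← norm_pow, ← pow_apply, r1]
    refine le_trans (norm_add_le_of_le ((G m).norm_coe_le_norm n) ?_) k1
    simpa using norm_sub_le_of_le i1.1.le (le_refl ‖b‖)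
  · rw [← hχ.Fpow h1 (by simp [h3]) (G_Y r), r1, map_add, map_add, map_smul, map_smul, h3,
      smul_eq_mul, mul_one]
    have := norm_sub_le (χ (F (G m)) + κ) (κ + b)
    rw [show χ (F (G m)) + κ - (κ + b) = χ (F (G m)) - b by ring] at this
    linarith [i1.2.1]
  · rw [← hψ.Fpow h2 h4 (G_Y r), r1, map_add, map_add, map_smul, map_smul, hb,
      smul_eq_mul, ← add_mul, norm_mul, h4, mul_one, add_comm]
    exact i1.2.2.le

lemma main (hχ : Ch X χ) (hψ : Ch X ψ) {c : ℝ} (hc : c < 2)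
    (h : ∀ f ∈ X, ‖f‖ ≤ 1 → ‖χ f - ψ f‖ ≤ c) (hn : ¬ ∃ ρ, Ch H ρ ∧ ∀ f ∈ X, ρ f = χ f) :
    ∀ f ∈ X, χ f = ψ f := by
  have hk := fun j => kill hχ hn (j := j)
  obtain ⟨h1, h2⟩ := kill_one hχ hk
  have h3 : 1 ≤ ‖χ P‖ := by simp [h1]
  have h4 : 1 ≤ ‖ψ P‖ := not_lt.1 fun h4 => sep hχ hψ hc h h4 h3 fun η hη =>
    ⟨P, P_X, fun ε hε => .of_forall fun w => (P.norm_coe_le_norm w).trans
      (P_le.trans (by linarith)), by linarith, le_rfl⟩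
  have h5 : ‖ψ (F 1)‖ = 1 := (hψ.Fle h4 (one_mem _) (by simp)).antisymm <|
    not_lt.1 fun h4 => sep hχ hψ hc h h4 h3 fun η hη =>
      ⟨_, F_X (one_mem _), F_le (by simp [hη.le]), by simp [h2, hη.le], le_rfl⟩
  have h6 : ∀ m, χ (F (G m)) * ψ (F 1) = ψ (F (G m)) := fun m => by_contra fun hm =>
    sep hχ hψ hc h one_half_lt_one h3 (root hχ hψ h3 h4 h2 h5 hm)
  have h7 : ∀ f ∈ X, χ f * ψ (F 1) = ψ (F (ev f)) := fun f hf => by
    rw [← kill_ev hk hf.1, ← sub_eq_zero, ← norm_le_zero_iff]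
    refine le_lim (K := 2) fun ε hε => ?_
    obtain ⟨m, hm⟩ := hf.2 ε hε
    have h7 := sub_mem (show ev f ∈ Y from hf.2) (G_Y m)
    have h8 := norm_sub_le_of_le (norm_mul_le_of_le (hχ.Fle h3 h7 hm) h5.le) (hψ.Fle h4 h7 hm)
    simp only [map_sub] at h8
    rw [sub_mul, h6] at h8
    convert h8 using 1
    · congr 1; ring
    · ring
  have e0 : ψ (F 1) ≠ 0 := by rintro h; simp [h] at h5
  by_cases h8 : ∃ ρ, Ch H ρ ∧ ∀ f ∈ X, ρ f = ψ f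
  · obtain ⟨ρ, r1, r2⟩ := h8
    have r3 := r2 _ (F_X (one_mem _))
    refine absurd ⟨(ψ (F 1))⁻¹ • ρ ∘ₗ F ∘ₗ ev.toLinearMap, ⟨by simp [r3, e0], fun {f g} _ _ => ?_⟩,
      fun f hf => by simp [r2 _ (F_X (c := ev f) hf.2), ← h7 f hf, mul_comm, e0]⟩ hn
    have := r1.Fmul H_cl P_X.1 (by rwa [r2 _ P_X]) (F_H (ev f)) (F_H (ev g)) (F_H _) (F_H _)
    simp only [LinearMap.smul_apply, LinearMap.comp_apply, AlgHom.toLinearMap_apply, smul_eq_mul,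
      map_mul]
    field_simp
    rw [this, r3, mul_comm]
  · have hk' := fun j => kill hψ h8 (j := j)
    intro f hf
    simpa [kill_ev hk' hf.1, (kill_one hψ hk').2] using h7 f hf

lemma cor : ∃ χ : characterSpace ℂ X, (∀ j : X, J j → χ j = 0) ∧ χ ⟨_, F_X (G_Y 0)⟩ = 0 := by
  have : CompleteSpace X := X_cl.completeSpace_coe
  let I : Ideal X :=
    { carrier := {j | J j}
      add_mem' := fun h1 h2 => ⟨add_mem h1.1 h2.1, (h1.2.add h2.2).trans_eq (by simp)⟩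
      zero_mem' := ⟨zero_mem _, tendsto_const_nhds⟩
      smul_mem' := fun a j h => by simpa [mul_comm] using h.mul a.2.1 }
  obtain ⟨M, h1, h2⟩ := (I ⊔ Ideal.span {⟨_, F_X (G_Y 0)⟩}).exists_le_maximal fun h => by
    obtain ⟨j, h1, _, h2, h3⟩ := Submodule.mem_sup.1 ((Ideal.eq_top_iff_one _).1 h)
    obtain ⟨a, rfl⟩ := Ideal.mem_span_singleton'.1 h2
    obtain ⟨m, hm⟩ := a.2.2 (1 / 4) (by norm_num)
    have h4 : Tendsto (fun n => ev j.1 n + ev a.1 n * (ev (F (G 0)) n - G 0 n)) atTop (𝓝 0) := by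
      simpa using h1.2.add (squeeze_zero_norm (fun n => norm_mul_le_of_le
        ((ev a.1).norm_coe_le_norm n) le_rfl) (((F_ev (G 0)).norm.const_mul _).trans_eq (by simp)))
    refine absurd (noinv m _ (R_mem le_rfl) (1 / 2) fun x => ?_) (by norm_num)
    obtain ⟨n, rfl, h5, h6⟩ := ((xs_freq x).and_eventually (hm.and (h4.norm.eventually
      (ge_mem_nhds (show _ < 1 / 4 by norm_num))))).exists
    have h7 : ev j.1 n + ev a.1 n * ev (F (G 0)) n = 1 :=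
      congrArg (fun f : X => ev f.1 n) h3
    have h0 : ‖G 0 n‖ = 1 := by rw [G_eq, g, MP_e9aa5f_an.e_norm]
    change ‖ev a.1 n - _‖ ≤ _ at h5
    have := norm_add_le_of_le h6 (norm_mul_le_of_le h5 h0.le)
    rw [← G_eq, ← G_eq]
    convert this using 1
    · congr 1; linear_combination -h7
    · norm_num
  exact ⟨M.toCharacterSpace, fun j hj => M.toCharacterSpace_apply_eq_zero_of_mem
    (h2 (Submodule.mem_sup_left hj)), M.toCharacterSpace_apply_eq_zero_of_mem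
      (h2 (Submodule.mem_sup_right (Ideal.mem_span_singleton_self _)))⟩

lemma not_dense : ¬ Dense {φ : characterSpace ℂ X | ∃ z : D, ∀ f : X, φ f = f.1 z} := fun h => by
  obtain ⟨χ, h1, h2⟩ := cor
  obtain ⟨τ, h3, h4⟩ := toCh χ
  obtain ⟨h5, h6⟩ := kill_one h3 fun j hj => (h4 ⟨j, hj.X⟩).trans (h1 _ hj)
  obtain ⟨q, q1, -, q2⟩ := away F_cor
  have c : ∀ f : X, Continuous fun φ : characterSpace ℂ X => φ f := fun f =>
    (WeakDual.eval_continuous f).comp continuous_subtype_val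
  obtain ⟨φ, ⟨p1, p2, p3⟩, z, hz⟩ := h.inter_open_nonempty
    {φ | q < ‖φ ⟨P, P_X⟩‖ ∧ ‖φ ⟨_, F_X (G_Y 0)⟩‖ < 1 / 4 ∧ ‖φ ⟨_, F_X (one_mem _)⟩ - 1‖ < 1 / 4}
    ((isOpen_lt continuous_const (c _).norm).inter ((isOpen_lt (c _).norm continuous_const).inter
      (isOpen_lt ((c _).sub continuous_const).norm continuous_const)))
    ⟨χ, by simp [← h4, h5, q1], by simp [h2], by simp [← h4, h6]⟩
  rw [hz] at p1 p2 p3
  exact (q2 z fun h => h.elim p2.not_ge p3.not_ge).not_gt (P_eq z ▸ p1)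

end Pool.Agent.H.MP_a7579f_an
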